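import Pool.Agent.H38.O1.N3

set_option autoImplicit false

/-!
The end game for noncommutative simple automorphic loops of odd order: if `th(a, b)` fixes `b` for all
`a`, `b`, then `x ↦ T_x` is a homomorphism, so a simple loop is associative or commutative.
-/

namespace ALoop

open Equiv

variable {Q : Type*} {G : Subgroup (Perm Q)} {L : Q → Perm Q} {J : Perm Q} {e : Q}

namespace AL0

/-- the inverse property -/
theorem ip_of_K7 (h : AL0 G L J e) (hK7 : ∀ a b, Th L J a b b = b) (b : Q) :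
    Rt L J b * Rt L J (J b) = 1 := by
  have hcen : ∀ a, (Rt L J b * Rt L J (J b)) * L a = L a * (Rt L J b * Rt L J (J b)) := by
    intro a
    obtain ⟨t, ht⟩ : ∃ t, t = Th L J a b := ⟨_, rfl⟩
    have htG : t ∈ G := by rw [ht]; exact h.Th_mem a b
    have hte : t e = e := by rw [ht]; exact h.Th_e a b
    have htb : t b = b := by rw [ht]; exact hK7 a b
    have hL := h.comL htG hte htb
    have hR := h.comR htG hte htb
    have hRJ := h.comR htG hte (h.fixJ htG hte htb)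
    have hT : t * Tx L J b = Tx L J b * t := by
      unfold Tx
      calc t * (L b * (Rt L J b)⁻¹) = (t * L b) * (Rt L J b)⁻¹ := by group
        _ = L b * (Rt L J b)⁻¹ * (Rt L J b * t) * (Rt L J b)⁻¹ := by rw [hL]; group
        _ = L b * (Rt L J b)⁻¹ * t := by rw [← hR]; group
    have h1 := h.K1 a b
    rw [← ht, hT] at h1
    have h2 : t = (Th L J a (J b))⁻¹ := (mul_left_cancel h1).symm
    have f1 : Rt L J b * L a = L a * (Rt L J b * t⁻¹) := by
      rw [ht]; unfold Th; group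
    have f2 : Rt L J (J b) * L a = L a * (Rt L J (J b) * t) := by
      rw [h2]; unfold Th; group
    calc (Rt L J b * Rt L J (J b)) * L a = Rt L J b * (Rt L J (J b) * L a) := by group
      _ = (Rt L J b * L a) * (Rt L J (J b) * t) := by rw [f2]; group
      _ = L a * Rt L J b * t⁻¹ * (Rt L J (J b) * t) := by rw [f1]; group
      _ = L a * Rt L J b * t⁻¹ * (t * Rt L J (J b)) := by rw [hRJ]
      _ = L a * (Rt L J b * Rt L J (J b)) := by group
  have hmue : (Rt L J b * Rt L J (J b)) e = e := by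
    rw [Perm.mul_apply, h.Rt_e, h.Rt_app, h.JL]
  ext q
  have h3 := congrArg (fun f : Perm Q => f e) (hcen q)
  simp only [Perm.mul_apply] at h3 hmue
  rw [hmue, h.Le] at h3
  rw [Perm.mul_apply, h3, Perm.one_apply]

/-- the left inverse property -/
theorem ipL (h : AL0 G L J e) (hK7 : ∀ a b, Th L J a b b = b) (b : Q) : L (J b) = (L b)⁻¹ := by
  have h1 := h.ip_of_K7 hK7 b
  have h2 : L (J b) * L b = 1 := by
    have h3 : L b = J * Rt L J (J b) * J := by
      rw [h.JRJ, h.JJ]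
    rw [← h.JRJ b, h3]
    calc J * Rt L J b * J * (J * Rt L J (J b) * J) =
        J * Rt L J b * (J * J) * Rt L J (J b) * J := by group
      _ = J * (Rt L J b * Rt L J (J b)) * J := by rw [h.JJ1]; group
      _ = 1 := by rw [h1, mul_one, h.JJ1]
  exact eq_inv_of_mul_eq_one_left h2

theorem ipR (h : AL0 G L J e) (hK7 : ∀ a b, Th L J a b b = b) (b : Q) :
    Rt L J (J b) = (Rt L J b)⁻¹ :=
  eq_inv_of_mul_eq_one_right (h.ip_of_K7 hK7 b)

/-- (N1) -/
theorem N1' (h : AL0 G L J e) (u x : Q) :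
    (Tx L J x)⁻¹ u = L ((L x)⁻¹ (Tx L J u x)) u := by
  obtain ⟨s, hs⟩ : ∃ s, s = (L x)⁻¹ (Tx L J u x) := ⟨_, rfl⟩
  rw [← hs]
  have hN3 : L x * L s = L (L x s) := by rw [hs]; exact h.N3 u x
  have hxs : L x s = Tx L J u x := by rw [hs, apply_inv']
  -- `x = w u`, `T_u x = u w`
  obtain ⟨w, hw⟩ : ∃ w, w = (Rt L J u)⁻¹ x := ⟨_, rfl⟩
  have hwu : L w u = x := by rw [hw, ← h.Rt_app, apply_inv']
  have huw : Tx L J u x = L u w := by unfold Tx; rw [Perm.mul_apply, ← hw]
  have h1 : L x (L s u) = L u x := by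
    have h2 := congrArg (fun f : Perm Q => f u) hN3
    simp only [Perm.mul_apply] at h2
    rw [h2, hxs, huw, ← h.flex', hwu]
  have h3 : L x (Rt L J x ((L x)⁻¹ u)) = L u x := by
    rw [h.Rt_app, h.flex', apply_inv']
  have h4 : (Tx L J x)⁻¹ u = Rt L J x ((L x)⁻¹ u) := by
    unfold Tx
    rw [mul_inv_rev, inv_inv, Perm.mul_apply]
  rw [h4]
  exact (L x).injective (h3.trans h1.symm)

/-- `N_s` and `N_(s⁻¹)` -/
theorem Nsp_Js (h : AL0 G L J e) (hK7 : ∀ a b, Th L J a b b = b) {s v : Q} (hs : Nsp L s s)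
    (hv : Nsp L s v) : Nsp L (J s) v := by
  have h1 : Nsp L s (L v (J s)) := h.Nsp_mul hv (h.Nsp_inv hs)
  have h2 : L (L v (J s)) s = v := by
    have h3 : L (L v (J s)) s = Rt L J s (Rt L J (J s) v) := by rw [h.Rt_app, h.Rt_app]
    rw [h3, ← Perm.mul_apply, h.ip_of_K7 hK7, Perm.one_apply]
  unfold Nsp at h1 ⊢
  rw [h2] at h1
  rw [h.ipL hK7]
  calc L v * (L s)⁻¹ = (L (L v (J s)) * L s) * (L s)⁻¹ := by rw [h1]
    _ = L (L v (J s)) := by group

/-- the commutators are left nuclear for `u` -/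
theorem s_left (h : AL0 G L J e) (hK7 : ∀ a b, Th L J a b b = b) (u x : Q) :
    L (L ((L x)⁻¹ (Tx L J u x)) u) = L ((L x)⁻¹ (Tx L J u x)) * L u := by
  have hN3 := h.N3 u x
  have hN4 := h.N4 u x
  obtain ⟨s, hs⟩ : ∃ s, s = (L x)⁻¹ (Tx L J u x) := ⟨_, rfl⟩
  rw [← hs] at hN3 hN4 ⊢
  have hss : Nsp L s s := by
    rw [h.Nsp_iff] at hN3 hN4 ⊢
    intro w
    obtain ⟨g1, g2⟩ := h.Nsp_r s w
    have e1 := hN3 w
    have e2 := hN4 w
    obtain ⟨g, hg⟩ : ∃ g, g = (Rt L J (L s w))⁻¹ * Rt L J w * Rt L J s := ⟨_, rfl⟩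
    rw [← hg] at g1 g2 e1 e2 ⊢
    have h1 := h.Tx_cen u g g1 g2 e2
    have h2 := congrArg (fun f : Perm Q => f x) h1
    simp only [Perm.mul_apply] at h2
    rw [e1] at h2
    have h3 : L x s = Tx L J u x := by rw [hs, apply_inv']
    have h4 := h.aut g1 g2 x s
    rw [e1, h3, ← h2, ← h3] at h4
    exact ((L x).injective h4).symm
  have h5 := h.Nsp_Js hK7 hss (h.Nsp_inv hN4)
  unfold Nsp at h5
  rw [← h.aaip, h.ipL hK7, h.ipL hK7, h.ipL hK7] at h5
  calc L (L s u) = ((L (L s u))⁻¹)⁻¹ := by group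
    _ = ((L u)⁻¹ * (L s)⁻¹)⁻¹ := by rw [h5]
    _ = L s * L u := by group

/-- `x ↦ T_x` is a homomorphism -/
theorem Tx_hom (h : AL0 G L J e) (hK7 : ∀ a b, Th L J a b b = b) (x y : Q) :
    Tx L J (L x y) = Tx L J x * Tx L J y := by
  ext z
  have hn3 := h.N3 x z
  have hm3 := h.N3 y z
  have hm4 := h.N4 y z
  have hn1 := h.N1' x z
  have hm1 := h.N1' y z
  have hnl := h.s_left hK7 x z
  have hml := h.s_left hK7 y z
  obtain ⟨n, hn⟩ : ∃ n, n = (L z)⁻¹ (Tx L J x z) := ⟨_, rfl⟩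
  obtain ⟨m, hm⟩ : ∃ m, m = (L z)⁻¹ (Tx L J y z) := ⟨_, rfl⟩
  rw [← hn] at hn3 hn1 hnl
  rw [← hm] at hm3 hm4 hm1 hml
  have hzn : L z n = Tx L J x z := by rw [hn, apply_inv']
  have hzm : L z m = Tx L J y z := by rw [hm, apply_inv']
  obtain ⟨T, hT⟩ : ∃ T, T = Tx L J x := ⟨_, rfl⟩
  have hTG : T ∈ G := by rw [hT]; exact h.Tx_mem x
  have hTe : T e = e := by rw [hT]; exact h.Tx_e x
  have hTq : ∀ q, T (L q x) = L x q := by
    intro q
    rw [hT]
    unfold Tx
    rw [Perm.mul_apply, ← h.Rt_app x q, inv_apply']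
  have hTcen := h.Tx_cen x
  rw [← hT] at hzn hTcen ⊢
  obtain ⟨p, hp⟩ : ∃ p, p = T m := ⟨_, rfl⟩
  -- `x (m y) = p (x y)`
  have h1 : L x (L m y) = L p (L x y) := by
    rw [← hTq, hml, Perm.mul_apply, h.aut hTG hTe, hTq, hp]
  -- `(n p) (x y) = n (p (x y))`
  have h2 : L (L n p) (L x y) = L n (L p (L x y)) := by
    obtain ⟨w, hw⟩ : ∃ w, w = L y x := ⟨_, rfl⟩
    have e1 := (h.Nsp_iff m y).1 hm4 w
    have e2 := (h.Nsp_iff m z).1 hm3 w
    obtain ⟨g1, g2⟩ := h.Nsp_r m w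
    have e3 : ((Rt L J (L m w))⁻¹ * Rt L J w * Rt L J m) w = w := by
      simp only [Perm.mul_apply]
      rw [Perm.inv_eq_iff_eq, h.Rt_app, h.Rt_app, h.Rt_app, h.flex']
    have e4 : ∀ v, ((Rt L J (L m w))⁻¹ * Rt L J w * Rt L J m) v = v →
        L (L v m) w = L v (L m w) := by
      intro v hv
      simp only [Perm.mul_apply] at hv
      rw [Perm.inv_eq_iff_eq, h.Rt_app, h.Rt_app, h.Rt_app] at hv
      exact hv
    obtain ⟨g, hg⟩ : ∃ g, g = (Rt L J (L m w))⁻¹ * Rt L J w * Rt L J m := ⟨_, rfl⟩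
    rw [← hg] at g1 g2 e1 e2 e3 e4
    have e5 : g x = x := by
      have h3 := h.aut g1 g2 y x
      rw [← hw, e3, e1, hw] at h3
      exact ((L y).injective h3).symm
    have e6 := hTcen g g1 g2 e5
    have e7 : g n = n := by
      have h3 := h.aut g1 g2 z n
      rw [hzn, e2] at h3
      have h4 := congrArg (fun f : Perm Q => f z) e6
      simp only [Perm.mul_apply] at h4
      rw [e2] at h4
      rw [← h4, ← hzn] at h3
      exact ((L z).injective h3).symm
    have e8 : g (T⁻¹ n) = T⁻¹ n := by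
      have h4 := congrArg (fun f : Perm Q => f (T⁻¹ n)) e6
      simp only [Perm.mul_apply] at h4
      rw [apply_inv', e7] at h4
      rw [Perm.eq_inv_iff_eq]
      exact h4
    have e9 : T (L (L (T⁻¹ n) m) w) = T (L (T⁻¹ n) (L m w)) := congrArg T (e4 _ e8)
    rw [h.aut hTG hTe, h.aut hTG hTe, h.aut hTG hTe, h.aut hTG hTe, apply_inv', hw, hTq,
      ← hp] at e9
    exact e9
  -- `T_z⁻¹ (x y) = (n p) (x y)`
  have h3 : (Tx L J z)⁻¹ (L x y) = L (L n p) (L x y) := by
    have hG : (Tx L J z)⁻¹ ∈ G := G.inv_mem (h.Tx_mem z)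
    have hE : (Tx L J z)⁻¹ e = e := by rw [Perm.inv_eq_iff_eq, h.Tx_e]
    rw [h.aut hG hE, hn1, hm1, hnl, Perm.mul_apply, h1, h2]
  have h4 := h.N1' (L x y) z
  rw [h3] at h4
  have h5 : L n p = (L z)⁻¹ (Tx L J (L x y) z) := by
    rw [← h.Rt_app (L x y) (L n p), ← h.Rt_app (L x y) ((L z)⁻¹ (Tx L J (L x y) z))] at h4
    exact (Rt L J (L x y)).injective h4
  have h6 : Tx L J (L x y) z = L z (L n p) := by rw [h5, apply_inv']
  rw [h6, Perm.mul_apply]
  have h7 := congrArg (fun f : Perm Q => f p) (show L z * L n = L (L z n) from hn3)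
  simp only [Perm.mul_apply] at h7
  rw [h7, hzn, hp, ← h.aut hTG hTe, hzm]

end AL0

/-- **end game**: if `th(a, b)` fixes `b` for all `a`, `b`, a simple loop is associative or
commutative -/
theorem AL.end_of_K7 (h : AL G L J e) (hK7 : ∀ a b, Th L J a b b = b) :
    Assoc L ∨ ∀ q, J * L q * J = L (J q) := by
  have h0 := h.al0
  have hhom := h0.Tx_hom hK7
  have hequi : ∀ g ∈ G, g e = e → ∀ x, g * Tx L J x * g⁻¹ = Tx L J (g x) := by
    intro g hg hge x
    have e1 := h.equi g hg hge x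
    have e2 := h.equi g hg hge (J x)
    have e3 := h.comJ g hg hge
    have e4 : g (J x) = J (g x) := by
      have := congrArg (fun f : Perm Q => f x) e3
      simpa using this
    have e5 : g * Rt L J x * g⁻¹ = Rt L J (g x) := by
      unfold Rt
      rw [← e4, ← e2]
      have e6 : J * g⁻¹ = g⁻¹ * J := by
        rw [mul_inv_eq_iff_eq_mul, mul_assoc, ← e3]; group
      calc g * (J * L (J x) * J) * g⁻¹ = (g * J) * L (J x) * (J * g⁻¹) := by group
        _ = (J * g) * L (J x) * (g⁻¹ * J) := by rw [e3, e6]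
        _ = J * (g * L (J x) * g⁻¹) * J := by group
    unfold Tx
    rw [← e1, ← e5]
    group
  have hr : ∀ g ∈ G, ∀ a b, Tx L J a = Tx L J b → Tx L J (g a) = Tx L J (g b) := by
    intro g hg a b hab
    obtain ⟨k, hk⟩ : ∃ k, k = (L (g e))⁻¹ * g := ⟨_, rfl⟩
    have hkG : k ∈ G := by rw [hk]; exact G.mul_mem (G.inv_mem (h.memL _)) hg
    have hke : k e = e := by rw [hk, Perm.mul_apply, Perm.inv_eq_iff_eq, h.Le]
    have hgk : ∀ q, g q = L (g e) (k q) := by
      intro q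
      rw [hk, Perm.mul_apply, apply_inv']
    rw [hgk a, hgk b, hhom, hhom, ← hequi k hkG hke a, ← hequi k hkG hke b, hab]
  rcases h.prim (fun a b => Tx L J a = Tx L J b)
    ⟨fun _ => rfl, fun h1 => h1.symm, fun h1 h2 => h1.trans h2⟩ hr with h1 | h1
  · left
    intro x y z
    apply h1
    rw [hhom, hhom, hhom, hhom, mul_assoc]
  · right
    intro q
    have h2 := h1 (J q) e
    have h3 : Tx L J e = 1 := by
      have h4 := hhom e e
      rw [h.Le] at h4
      exact (mul_eq_left.1 h4.symm)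
    change Tx L J (J q) = Tx L J e at h2
    rw [h3] at h2
    have h5 := h0.L_eq (J q)
    rw [h2, one_mul] at h5
    rw [h5]
    exact h0.JLJ q

end ALoop
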